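import Pool.Agent.Y853.EM.Sym

set_option autoImplicit false

/-! Exponential sums supported on the integers prime to `P`: the values at the points `x + j / P`
satisfy the linear recurrence whose characteristic polynomial is the `P`-th cyclotomic polynomial, so
that the sum is controlled by its values on any arc of length `φ(P) / P`. -/

namespace Pool.Agent.N375.LM

open Finset Polynomial
open Pool.Agent.Y853.EM (S S_zero S_add_nat)

theorem exp_shift (n i P : ℕ) (y : ℝ) :
    Complex.exp (2 * Real.pi * Complex.I * n * ((y + i / P : ℝ) : ℂ)) =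
      Complex.exp (2 * Real.pi * Complex.I * n * y) *
        Complex.exp (2 * Real.pi * Complex.I * (n / P)) ^ i := by
  rw [← Complex.exp_nat_mul, ← Complex.exp_add]
  congr 1
  push_cast
  ring

/-- the recurrence -/
theorem rec_zero (P : ℕ) (hP : 0 < P) (c : ℕ → ℂ) (hc : ∀ n : ℕ, ¬ n.Coprime P → c n = 0) (R : ℕ)
    (y : ℝ) : ∑ i ∈ range (P.totient + 1), (cyclotomic P ℂ).coeff i * S c R (y + i / P) = 0 := by
  have h1 : ∑ i ∈ range (P.totient + 1), (cyclotomic P ℂ).coeff i * S c R (y + i / P) =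
      ∑ n ∈ Icc 1 R, c n * Complex.exp (2 * Real.pi * Complex.I * n * y) *
        ∑ i ∈ range (P.totient + 1), (cyclotomic P ℂ).coeff i *
          Complex.exp (2 * Real.pi * Complex.I * (n / P)) ^ i := by
    unfold S
    simp only [Finset.mul_sum]
    rw [Finset.sum_comm]
    refine Finset.sum_congr rfl fun n _ => Finset.sum_congr rfl fun i _ => ?_
    rw [exp_shift]
    ring
  rw [h1]
  refine Finset.sum_eq_zero fun n _ => ?_
  by_cases hn : n.Coprime P
  · have hprim := Complex.isPrimitiveRoot_exp_of_coprime n P hP.ne' hn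
    have hroot := hprim.isRoot_cyclotomic hP
    have h2 : ∑ i ∈ range (P.totient + 1), (cyclotomic P ℂ).coeff i *
        Complex.exp (2 * Real.pi * Complex.I * (n / P)) ^ i = 0 := by
      have h3 := eval_eq_sum_range (p := cyclotomic P ℂ) (Complex.exp (2 * Real.pi * Complex.I * (n / P)))
      rw [natDegree_cyclotomic] at h3
      rw [← h3]
      exact hroot
    rw [h2, mul_zero]
  · rw [hc n hn]
    ring

/-- the constant of one step -/
noncomputable def Lam (P : ℕ) : ℝ := 1 + ∑ i ∈ range P.totient, ‖(cyclotomic P ℂ).coeff i‖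

theorem one_le_Lam (P : ℕ) : 1 ≤ Lam P := by
  unfold Lam
  have : 0 ≤ ∑ i ∈ range P.totient, ‖(cyclotomic P ℂ).coeff i‖ :=
    Finset.sum_nonneg fun i _ => norm_nonneg _
  linarith

theorem step (P : ℕ) (hP : 0 < P) (c : ℕ → ℂ) (hc : ∀ n : ℕ, ¬ n.Coprime P → c n = 0) (R : ℕ)
    (y B : ℝ) (hB : 0 ≤ B) (h : ∀ i < P.totient, ‖S c R (y + i / P)‖ ≤ B) :
    ‖S c R (y + P.totient / P)‖ ≤ Lam P * B := by
  have h1 := rec_zero P hP c hc R y
  rw [Finset.sum_range_succ] at h1
  have h2 : (cyclotomic P ℂ).coeff P.totient = 1 := by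
    have h3 := (cyclotomic.monic P ℂ).coeff_natDegree
    rw [natDegree_cyclotomic] at h3
    exact h3
  rw [h2, one_mul] at h1
  have h4 : S c R (y + P.totient / P) =
      -∑ i ∈ range P.totient, (cyclotomic P ℂ).coeff i * S c R (y + i / P) := by
    rw [eq_neg_iff_add_eq_zero, add_comm]
    exact h1
  rw [h4, norm_neg]
  refine (norm_sum_le _ _).trans ?_
  have h5 : ∑ i ∈ range P.totient, ‖(cyclotomic P ℂ).coeff i * S c R (y + i / P)‖ ≤
      ∑ i ∈ range P.totient, ‖(cyclotomic P ℂ).coeff i‖ * B := by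
    refine Finset.sum_le_sum fun i hi => ?_
    rw [norm_mul]
    exact mul_le_mul_of_nonneg_left (h i (Finset.mem_range.1 hi)) (norm_nonneg _)
  refine h5.trans ?_
  rw [← Finset.sum_mul]
  refine mul_le_mul_of_nonneg_right ?_ hB
  unfold Lam
  linarith

theorem iter (P : ℕ) (hP : 0 < P) (c : ℕ → ℂ) (hc : ∀ n : ℕ, ¬ n.Coprime P → c n = 0) (R : ℕ)
    (y B : ℝ) (hB : 0 ≤ B) (h : ∀ i < P.totient, ‖S c R (y + i / P)‖ ≤ B) (k : ℕ) :
    ‖S c R (y + k / P)‖ ≤ Lam P ^ k * B := by
  have hL := one_le_Lam P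
  induction k using Nat.strong_induction_on with
  | _ k ih =>
    by_cases hk : k < P.totient
    · refine (h k hk).trans ?_
      have : 1 ≤ Lam P ^ k := one_le_pow₀ hL
      nlinarith
    · obtain ⟨j, rfl⟩ := Nat.exists_eq_add_of_le (not_lt.1 hk)
      have hpos : 0 < P.totient := Nat.totient_pos.2 hP
      have hP' : (P : ℝ) ≠ 0 := by exact_mod_cast hP.ne'
      have h1 := step P hP c hc R (y + j / P) (Lam P ^ (P.totient + j - 1) * B)
        (mul_nonneg (pow_nonneg (by linarith) _) hB) (by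
          intro i hi
          have h2 := ih (j + i) (by omega)
          have e : y + j / P + i / P = y + ((j + i : ℕ) : ℝ) / P := by
            push_cast
            ring
          rw [e]
          refine h2.trans ?_
          exact mul_le_mul_of_nonneg_right (pow_le_pow_right₀ hL (by omega)) hB)
      have e : y + ((P.totient + j : ℕ) : ℝ) / P = y + j / P + P.totient / P := by
        push_cast
        ring
      rw [e]
      refine h1.trans (le_of_eq ?_)
      rw [← mul_assoc, ← pow_succ']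
      congr 2
      omega

theorem S_add_int (c : ℕ → ℂ) (R : ℕ) (x : ℝ) (t : ℤ) : S c R (x + t) = S c R x := by
  obtain ⟨k, rfl | rfl⟩ := t.eq_nat_or_neg
  · have := S_add_nat c R x k
    simpa using this
  · have := S_add_nat c R (x + ((-(k : ℤ) : ℤ) : ℝ)) k
    rw [← this]
    congr 1
    push_cast
    ring

/-- **Localisation**: every arc of length at least `φ(P) / P` controls the sum. -/
theorem arc (P : ℕ) (hP : 0 < P) : ∃ K : ℝ, 1 ≤ K ∧ ∀ c : ℕ → ℂ, (∀ n : ℕ, ¬ n.Coprime P → c n = 0) →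
    ∀ α β : ℝ, (P.totient : ℝ) ≤ P * (β - α) → ∀ (R : ℕ) (B : ℝ), 0 ≤ B →
      (∀ y ∈ Set.Icc α β, ‖S c R y‖ ≤ B) → ∀ x : ℝ, ‖S c R x‖ ≤ K * B := by
  refine ⟨Lam P ^ P, one_le_pow₀ (one_le_Lam P), ?_⟩
  intro c hc α β hαβ R B hB h x
  have hP0 : (0 : ℝ) < P := by exact_mod_cast hP
  obtain ⟨j0, hj0⟩ : ∃ j0 : ℤ, j0 = ⌈(P : ℝ) * (α - x)⌉ := ⟨_, rfl⟩
  have hj1 : (P : ℝ) * (α - x) ≤ j0 := by rw [hj0]; exact Int.le_ceil _
  have hj2 : (j0 : ℝ) < P * (α - x) + 1 := by rw [hj0]; exact Int.ceil_lt_add_one _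
  obtain ⟨y, hy⟩ : ∃ y : ℝ, y = x + j0 / P := ⟨_, rfl⟩
  have hy1 : α ≤ y := by
    rw [hy, ← sub_le_iff_le_add', le_div_iff₀ hP0]
    linarith
  have hy2 : y < α + 1 / P := by
    rw [hy, ← lt_sub_iff_add_lt', div_lt_iff₀ hP0]
    have : (α + 1 / P - x) * P = P * (α - x) + 1 := by
      field_simp
      ring
    linarith
  have hpt : ∀ i < P.totient, ‖S c R (y + i / P)‖ ≤ B := by
    intro i hi
    refine h _ ⟨?_, ?_⟩
    · have : (0 : ℝ) ≤ i / P := by positivity
      linarith
    · have h1 : ((i : ℝ) + 1) ≤ P.totient := by exact_mod_cast hi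
      have h2 : ((i : ℝ) + 1) / P ≤ β - α := by
        rw [div_le_iff₀ hP0]
        linarith
      have h3 : ((i : ℝ) + 1) / P = i / P + 1 / P := by ring
      linarith
  obtain ⟨k, hk⟩ : ∃ k : ℕ, (k : ℤ) = (-j0) % P := by
    refine ⟨((-j0) % P).toNat, ?_⟩
    rw [Int.toNat_of_nonneg]
    exact Int.emod_nonneg _ (by exact_mod_cast hP.ne')
  have hkP : k ≤ P := by
    have h1 := Int.emod_lt_of_pos (-j0) (show (0 : ℤ) < P by exact_mod_cast hP)
    rw [← hk] at h1
    exact_mod_cast h1.le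
  have h1 := iter P hP c hc R y B hB hpt k
  have h2 : x = y + k / P + (((-j0) / P : ℤ) : ℝ) := by
    have h3 := Int.emod_add_mul_ediv (-j0) P
    rw [← hk] at h3
    have h4 : (k : ℝ) + P * (((-j0) / P : ℤ) : ℝ) = -j0 := by exact_mod_cast h3
    have h5 : (k : ℝ) = -j0 - P * (((-j0) / P : ℤ) : ℝ) := by linarith
    rw [hy, h5]
    field_simp
    ring
  rw [h2, S_add_int]
  refine h1.trans ?_
  exact mul_le_mul_of_nonneg_right (pow_le_pow_right₀ (one_le_Lam P) hkP) hB

end Pool.Agent.N375.LM
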