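import Pool.Agent.N375.LM.Arc
import Pool.Agent.Y853.EM.Lio

set_option autoImplicit false

/-! Passing between the exponential sums over all integers and over the integers prime to `P`. -/

namespace Pool.Agent.N375.LM

open Finset
open Pool.Agent.Y853.EM (S S_zero S_add_nat muc lic)

/-- the coefficients at the integers prime to `P` -/
noncomputable def cop (P : ℕ) (f : ℕ → ℂ) (n : ℕ) : ℂ := if n.Coprime P then f n else 0

theorem cop_one (f : ℕ → ℂ) : cop 1 f = f := by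
  funext n
  unfold cop
  rw [if_pos (Nat.coprime_one_right n)]

/-- splitting off the multiples of `ℓ` -/
theorem S_splitp (ℓ : ℕ) (hℓ : 0 < ℓ) (c : ℕ → ℂ) (R : ℕ) (x : ℝ) :
    S c R x = S (fun n => if ℓ ∣ n then 0 else c n) R x + S (fun m => c (ℓ * m)) (R / ℓ) (ℓ * x) := by
  classical
  have h1 : S c R x = S (fun n => if ℓ ∣ n then 0 else c n) R x +
      ∑ n ∈ (Icc 1 R).filter (fun n => ℓ ∣ n), c n * Complex.exp (2 * Real.pi * Complex.I * n * x) := by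
    have h2 : S (fun n => if ℓ ∣ n then 0 else c n) R x = ∑ n ∈ (Icc 1 R).filter (fun n => ¬ ℓ ∣ n),
        c n * Complex.exp (2 * Real.pi * Complex.I * n * x) := by
      unfold S
      rw [Finset.sum_filter]
      refine Finset.sum_congr rfl fun n _ => ?_
      dsimp only
      by_cases hn : ℓ ∣ n
      · rw [if_pos hn, if_neg (not_not.2 hn), zero_mul]
      · rw [if_neg hn, if_pos hn]
    rw [h2]
    unfold S
    rw [add_comm, Finset.sum_filter_add_sum_filter_not]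
  rw [h1]
  congr 1
  unfold S
  symm
  refine Finset.sum_bij (fun m _ => ℓ * m) ?_ ?_ ?_ ?_
  · intro m hm
    rw [Finset.mem_Icc] at hm
    rw [Finset.mem_filter, Finset.mem_Icc]
    refine ⟨⟨?_, ?_⟩, Dvd.intro _ rfl⟩
    · exact Nat.one_le_iff_ne_zero.2 (Nat.mul_ne_zero hℓ.ne' (by omega))
    · have := Nat.mul_le_mul_left ℓ hm.2
      exact this.trans (Nat.mul_div_le R ℓ)
  · intro a _ b _ h
    exact Nat.eq_of_mul_eq_mul_left hℓ h
  · intro n hn
    rw [Finset.mem_filter, Finset.mem_Icc] at hn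
    obtain ⟨⟨h1, h2⟩, m, hm⟩ := hn
    refine ⟨m, ?_, hm.symm⟩
    rw [Finset.mem_Icc]
    refine ⟨?_, ?_⟩
    · rcases Nat.eq_zero_or_pos m with h | h
      · rw [h, mul_zero] at hm
        omega
      · exact h
    · rw [Nat.le_div_iff_mul_le hℓ, mul_comm, ← hm]
      exact h2
  · intro m _
    congr 2
    push_cast
    ring

theorem cop_mul {ℓ : ℕ} (hℓ : ℓ.Prime) (P : ℕ) (f : ℕ → ℂ) :
    (fun n => if ℓ ∣ n then 0 else cop P f n) = cop (ℓ * P) f := by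
  funext n
  unfold cop
  by_cases h : ℓ ∣ n
  · rw [if_pos h, if_neg]
    intro h1
    have h2 := Nat.Coprime.coprime_mul_right_right h1
    exact (Nat.Prime.coprime_iff_not_dvd hℓ).1 h2.symm h
  · rw [if_neg h]
    have h3 : n.Coprime ℓ := ((Nat.Prime.coprime_iff_not_dvd hℓ).2 h).symm
    by_cases h4 : n.Coprime P
    · rw [if_pos h4, if_pos (Nat.Coprime.mul_right h3 h4)]
    · rw [if_neg h4, if_neg]
      intro h5
      exact h4 (Nat.Coprime.coprime_mul_left_right h5)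

theorem cop_same {ℓ P : ℕ} (h : ℓ ∣ P) (f : ℕ → ℂ) : cop (ℓ * P) f = cop P f := by
  funext n
  unfold cop
  by_cases h4 : n.Coprime P
  · rw [if_pos h4, if_pos (Nat.Coprime.mul_right (Nat.Coprime.coprime_dvd_right h h4) h4)]
  · rw [if_neg h4, if_neg]
    intro h5
    exact h4 (Nat.Coprime.coprime_mul_left_right h5)

theorem S_negc (c : ℕ → ℂ) (R : ℕ) (x : ℝ) : S (fun n => -c n) R x = -S c R x := by
  unfold S
  rw [← Finset.sum_neg_distrib]
  exact Finset.sum_congr rfl fun n _ => by ring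

theorem mu_mul {ℓ : ℕ} (hℓ : ℓ.Prime) {P : ℕ} (hP : ¬ ℓ ∣ P) :
    (fun m => cop P muc (ℓ * m)) = fun m => -cop (ℓ * P) muc m := by
  funext m
  have hc : ℓ.Coprime P := (Nat.Prime.coprime_iff_not_dvd hℓ).2 hP
  unfold cop
  by_cases h : ℓ ∣ m
  · have h1 : ¬ m.Coprime (ℓ * P) := by
      intro h1
      exact (Nat.Prime.coprime_iff_not_dvd hℓ).1 (Nat.Coprime.coprime_mul_right_right h1).symm h
    rw [if_neg h1, neg_zero]
    split_ifs
    · have h2 : ¬ Squarefree (ℓ * m) := by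
        intro h2
        obtain ⟨k, rfl⟩ := h
        have h3 := h2 ℓ ⟨k, by ring⟩
        exact hℓ.one_lt.ne' (Nat.isUnit_iff.1 h3)
      unfold muc
      rw [ArithmeticFunction.moebius_eq_zero_of_not_squarefree h2]
      simp
    · rfl
  · have h3 : ℓ.Coprime m := (Nat.Prime.coprime_iff_not_dvd hℓ).2 h
    have h5 : muc (ℓ * m) = -muc m := by
      unfold muc
      rw [ArithmeticFunction.isMultiplicative_moebius.map_mul_of_coprime h3,
        ArithmeticFunction.moebius_apply_prime hℓ]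
      push_cast
      ring
    by_cases h4 : m.Coprime P
    · rw [if_pos (Nat.Coprime.mul_left hc h4), if_pos (Nat.Coprime.mul_right h3.symm h4), h5]
    · rw [if_neg (fun h6 => h4 (Nat.Coprime.coprime_mul_left h6)),
        if_neg (fun h6 => h4 (Nat.Coprime.coprime_mul_left_right h6)), neg_zero]

theorem li_mul {ℓ : ℕ} (hℓ : ℓ.Prime) {P : ℕ} (hP : ¬ ℓ ∣ P) :
    (fun m => cop P lic (ℓ * m)) = fun m => -cop P lic m := by
  funext m
  have hc : ℓ.Coprime P := (Nat.Prime.coprime_iff_not_dvd hℓ).2 hP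
  unfold cop
  have h5 : lic (ℓ * m) = -lic m := by
    unfold lic
    rw [ArithmeticFunction.liouville_apply_mul]
    have h : ArithmeticFunction.liouville ℓ = -1 := by
      rw [ArithmeticFunction.liouville_apply hℓ.ne_zero, ArithmeticFunction.cardFactors_apply_prime hℓ]
      norm_num
    rw [h]
    push_cast
    ring
  by_cases h4 : m.Coprime P
  · rw [if_pos (Nat.Coprime.mul_left hc h4), if_pos h4, h5]
  · rw [if_neg (fun h6 => h4 (Nat.Coprime.coprime_mul_left h6)), if_neg h4, neg_zero]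

/-- power bounds, uniform on the circle -/
def UB (c : ℕ → ℂ) (b : ℝ) : Prop := ∃ C : ℝ, ∀ (R : ℕ) (x : ℝ), ‖S c R x‖ ≤ C * (R : ℝ) ^ b

theorem div_rpow {ℓ : ℕ} (hℓ : 2 ≤ ℓ) {b : ℝ} (hb : 0 < b) (R : ℕ) :
    ((R / ℓ : ℕ) : ℝ) ^ b ≤ (2 : ℝ) ^ (-b) * (R : ℝ) ^ b := by
  have h0 : (2 : ℝ) ≤ ℓ := by exact_mod_cast hℓ
  have h1 : ((R / ℓ : ℕ) : ℝ) ≤ (R : ℝ) / 2 := by
    refine Nat.cast_div_le.trans ?_
    exact div_le_div_of_nonneg_left (Nat.cast_nonneg _) (by norm_num) h0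
  calc ((R / ℓ : ℕ) : ℝ) ^ b ≤ ((R : ℝ) / 2) ^ b := Real.rpow_le_rpow (Nat.cast_nonneg _) h1 hb.le
    _ = (2 : ℝ) ^ (-b) * (R : ℝ) ^ b := by
        rw [Real.div_rpow (Nat.cast_nonneg _) (by norm_num), Real.rpow_neg (by norm_num), div_eq_inv_mul]

theorem two_neg_lt {b : ℝ} (hb : 0 < b) : (2 : ℝ) ^ (-b) < 1 :=
  Real.rpow_lt_one_of_one_lt_of_neg (by norm_num) (by linarith)

theorem UB_nonneg {c : ℕ → ℂ} {b : ℝ} (h : UB c b) :
    ∃ C : ℝ, 0 ≤ C ∧ ∀ (R : ℕ) (x : ℝ), ‖S c R x‖ ≤ C * (R : ℝ) ^ b := by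
  obtain ⟨C, hC⟩ := h
  refine ⟨|C|, abs_nonneg _, fun R x => (hC R x).trans ?_⟩
  exact mul_le_mul_of_nonneg_right (le_abs_self _) (Real.rpow_nonneg (Nat.cast_nonneg _) _)

theorem UB_rel {c₁ c₂ : ℕ → ℂ} {ℓ : ℕ} (hℓ : 2 ≤ ℓ) {b : ℝ} (hb : 0 < b) {e : ℂ} (he : ‖e‖ ≤ 1)
    (h : ∀ (R : ℕ) (x : ℝ), S c₁ R x = S c₂ R x + e * S c₂ (R / ℓ) (ℓ * x)) : UB c₁ b ↔ UB c₂ b := by
  have h2 := two_neg_lt hb
  have h20 : (0 : ℝ) < (2 : ℝ) ^ (-b) := Real.rpow_pos_of_pos (by norm_num) _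
  constructor
  · intro h1
    obtain ⟨C, hC0, hC⟩ := UB_nonneg h1
    obtain ⟨D, hD⟩ : ∃ D : ℝ, D = C / (1 - (2 : ℝ) ^ (-b)) := ⟨_, rfl⟩
    have hD0 : 0 ≤ D := by rw [hD]; exact div_nonneg hC0 (by linarith)
    have hDC : C + D * (2 : ℝ) ^ (-b) = D := by
      rw [hD]
      have : 1 - (2 : ℝ) ^ (-b) ≠ 0 := by linarith
      field_simp
      ring
    refine ⟨D, ?_⟩
    intro R
    induction R using Nat.strong_induction_on with
    | _ R ih =>
      intro x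
      rcases Nat.eq_zero_or_pos R with rfl | hR
      · rw [S_zero, norm_zero]
        exact mul_nonneg hD0 (Real.rpow_nonneg (Nat.cast_nonneg _) _)
      · have h3 := ih (R / ℓ) (Nat.div_lt_self hR (by omega)) (ℓ * x)
        have h4 : S c₂ R x = S c₁ R x - e * S c₂ (R / ℓ) (ℓ * x) := by
          rw [h R x]
          ring
        rw [h4]
        refine (norm_sub_le _ _).trans ?_
        rw [norm_mul]
        have h5 : ‖e‖ * ‖S c₂ (R / ℓ) (ℓ * x)‖ ≤ D * ((2 : ℝ) ^ (-b) * (R : ℝ) ^ b) := by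
          calc ‖e‖ * ‖S c₂ (R / ℓ) (ℓ * x)‖ ≤ 1 * ‖S c₂ (R / ℓ) (ℓ * x)‖ := by gcongr
            _ = ‖S c₂ (R / ℓ) (ℓ * x)‖ := one_mul _
            _ ≤ D * ((R / ℓ : ℕ) : ℝ) ^ b := h3
            _ ≤ D * ((2 : ℝ) ^ (-b) * (R : ℝ) ^ b) := by
                exact mul_le_mul_of_nonneg_left (div_rpow hℓ hb R) hD0
        calc ‖S c₁ R x‖ + ‖e‖ * ‖S c₂ (R / ℓ) (ℓ * x)‖
            ≤ C * (R : ℝ) ^ b + D * ((2 : ℝ) ^ (-b) * (R : ℝ) ^ b) := add_le_add (hC R x) h5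
          _ = (C + D * (2 : ℝ) ^ (-b)) * (R : ℝ) ^ b := by ring
          _ = D * (R : ℝ) ^ b := by rw [hDC]
  · intro h1
    obtain ⟨C, hC0, hC⟩ := UB_nonneg h1
    refine ⟨C + C, fun R x => ?_⟩
    rw [h R x]
    refine (norm_add_le _ _).trans ?_
    rw [norm_mul]
    have h5 : ‖e‖ * ‖S c₂ (R / ℓ) (ℓ * x)‖ ≤ C * (R : ℝ) ^ b := by
      calc ‖e‖ * ‖S c₂ (R / ℓ) (ℓ * x)‖ ≤ 1 * ‖S c₂ (R / ℓ) (ℓ * x)‖ := by gcongr
        _ = ‖S c₂ (R / ℓ) (ℓ * x)‖ := one_mul _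
        _ ≤ C * ((R / ℓ : ℕ) : ℝ) ^ b := hC _ _
        _ ≤ C * ((2 : ℝ) ^ (-b) * (R : ℝ) ^ b) := by
            exact mul_le_mul_of_nonneg_left (div_rpow hℓ hb R) hC0
        _ ≤ C * (1 * (R : ℝ) ^ b) := by
            have := Real.rpow_nonneg (Nat.cast_nonneg (α := ℝ) R) b
            gcongr
        _ = C * (R : ℝ) ^ b := by ring
    calc ‖S c₂ R x‖ + ‖e‖ * ‖S c₂ (R / ℓ) (ℓ * x)‖ ≤ C * (R : ℝ) ^ b + C * (R : ℝ) ^ b :=
          add_le_add (hC R x) h5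
      _ = (C + C) * (R : ℝ) ^ b := by ring

theorem mu_step {ℓ : ℕ} (hℓ : ℓ.Prime) (P : ℕ) {b : ℝ} (hb : 0 < b) :
    UB (cop P muc) b ↔ UB (cop (ℓ * P) muc) b := by
  by_cases h : ℓ ∣ P
  · rw [cop_same h]
  · refine UB_rel hℓ.two_le hb (e := -1) (by simp) fun R x => ?_
    rw [S_splitp ℓ hℓ.pos, cop_mul hℓ, mu_mul hℓ h, S_negc]
    ring

theorem li_step {ℓ : ℕ} (hℓ : ℓ.Prime) (P : ℕ) {b : ℝ} (hb : 0 < b) :
    UB (cop P lic) b ↔ UB (cop (ℓ * P) lic) b := by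
  by_cases h : ℓ ∣ P
  · rw [cop_same h]
  · symm
    refine UB_rel hℓ.two_le hb (e := 1) (by simp) fun R x => ?_
    have h1 := S_splitp ℓ hℓ.pos (cop P lic) R x
    rw [cop_mul hℓ, li_mul hℓ h, S_negc] at h1
    rw [h1]
    ring

theorem mu_cop {P : ℕ} (hP : 0 < P) {b : ℝ} (hb : 0 < b) : UB muc b ↔ UB (cop P muc) b := by
  induction P using induction_on_primes with
  | zero => omega
  | one => rw [cop_one]
  | prime_mul p a hp ih =>
    have ha : 0 < a := Nat.pos_of_ne_zero (by rintro rfl; simp at hP)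
    rw [ih ha]
    exact mu_step hp a hb

theorem li_cop {P : ℕ} (hP : 0 < P) {b : ℝ} (hb : 0 < b) : UB lic b ↔ UB (cop P lic) b := by
  induction P using induction_on_primes with
  | zero => omega
  | one => rw [cop_one]
  | prime_mul p a hp ih =>
    have ha : 0 < a := Nat.pos_of_ne_zero (by rintro rfl; simp at hP)
    rw [ih ha]
    exact li_step hp a hb

end Pool.Agent.N375.LM
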