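import Pool.Agent.N375.LM.Gen

set_option autoImplicit false

/-! Dilations: the Möbius exponential sum at the multiples of a point. -/

namespace Pool.Agent.N375.LM

open Finset Filter Topology
open Pool.Agent.Y853.EM (S S_zero S_add_nat muc lic muc_norm od)

/-- bounds at the multiples of the points of `A` -/
def DB (c : ℕ → ℂ) (A : Set ℝ) (η : ℝ) : Prop := ∃ C : ℝ, 0 ≤ C ∧ ∀ (R : ℕ), ∀ x ∈ A, ∀ d : ℕ, 1 ≤ d →
  ‖S c R (d * x)‖ ≤ C * (d : ℝ) ^ η * Real.sqrt R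

theorem dil_step {ℓ : ℕ} (hℓ : ℓ.Prime) (P : ℕ) {η : ℝ} (hη : η < 1 / 2) {A : Set ℝ}
    (h : DB (cop P muc) A η) : DB (cop (ℓ * P) muc) A η := by
  by_cases hd : ℓ ∣ P
  · rwa [cop_same hd]
  · obtain ⟨C, hC0, hC⟩ := h
    have hℓ2 : (2 : ℝ) ≤ ℓ := by exact_mod_cast hℓ.two_le
    have hℓ0 : (0 : ℝ) < ℓ := by linarith
    obtain ⟨q, hq⟩ : ∃ q : ℝ, q = (ℓ : ℝ) ^ (η - 1 / 2) := ⟨_, rfl⟩
    have hq0 : 0 < q := by rw [hq]; positivity
    have hq1 : q < 1 := by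
      rw [hq]
      exact Real.rpow_lt_one_of_one_lt_of_neg (by linarith) (by linarith)
    obtain ⟨D, hD⟩ : ∃ D : ℝ, D = C / (1 - q) := ⟨_, rfl⟩
    have hD0 : 0 ≤ D := by rw [hD]; exact div_nonneg hC0 (by linarith)
    have hDC : C + D * q = D := by
      rw [hD]
      have : 1 - q ≠ 0 := by linarith
      field_simp
      ring
    refine ⟨D, hD0, ?_⟩
    intro R
    induction R using Nat.strong_induction_on with
    | _ R ih =>
      intro x hx d hd1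
      rcases Nat.eq_zero_or_pos R with rfl | hR
      · rw [S_zero, norm_zero]
        positivity
      · have h3 := ih (R / ℓ) (Nat.div_lt_self hR hℓ.one_lt) x hx (ℓ * d)
          (Nat.mul_pos hℓ.pos hd1)
        have h4 := S_splitp ℓ hℓ.pos (cop P muc) R (d * x)
        rw [cop_mul hℓ, mu_mul hℓ hd, S_negc] at h4
        have h5 : S (cop (ℓ * P) muc) R (d * x) =
            S (cop P muc) R (d * x) + S (cop (ℓ * P) muc) (R / ℓ) (((ℓ * d : ℕ) : ℝ) * x) := by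
          rw [h4]
          push_cast
          rw [show (ℓ : ℝ) * (d * x) = ℓ * d * x by ring]
          ring
        rw [h5]
        refine (norm_add_le _ _).trans ?_
        have h6 : Real.sqrt ((R / ℓ : ℕ) : ℝ) ≤ (ℓ : ℝ) ^ (-(1 / 2) : ℝ) * Real.sqrt R := by
          have h7 : ((R / ℓ : ℕ) : ℝ) ≤ (R : ℝ) / ℓ := Nat.cast_div_le
          calc Real.sqrt ((R / ℓ : ℕ) : ℝ) ≤ Real.sqrt ((R : ℝ) / ℓ) := Real.sqrt_le_sqrt h7
            _ = (ℓ : ℝ) ^ (-(1 / 2) : ℝ) * Real.sqrt R := by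
                rw [Real.sqrt_div' _ hℓ0.le, Real.rpow_neg hℓ0.le, ← Real.sqrt_eq_rpow]
                rw [div_eq_inv_mul]
        have hdp : 0 ≤ (d : ℝ) ^ η := Real.rpow_nonneg (Nat.cast_nonneg _) _
        have h8 : ‖S (cop (ℓ * P) muc) (R / ℓ) (((ℓ * d : ℕ) : ℝ) * x)‖ ≤
            D * q * (d : ℝ) ^ η * Real.sqrt R := by
          refine h3.trans ?_
          have h9 : ((ℓ * d : ℕ) : ℝ) ^ η = (ℓ : ℝ) ^ η * (d : ℝ) ^ η := by
            rw [Nat.cast_mul, Real.mul_rpow hℓ0.le (Nat.cast_nonneg _)]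
          have hqe : q = (ℓ : ℝ) ^ η * (ℓ : ℝ) ^ (-(1 / 2) : ℝ) := by
            rw [hq, ← Real.rpow_add hℓ0]
            congr 1
          rw [h9, hqe]
          calc D * ((ℓ : ℝ) ^ η * (d : ℝ) ^ η) * Real.sqrt ((R / ℓ : ℕ) : ℝ) ≤
                D * ((ℓ : ℝ) ^ η * (d : ℝ) ^ η) * ((ℓ : ℝ) ^ (-(1 / 2) : ℝ) * Real.sqrt R) := by
                refine mul_le_mul_of_nonneg_left h6 ?_
                have : 0 ≤ (ℓ : ℝ) ^ η := Real.rpow_nonneg hℓ0.le _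
                positivity
            _ = _ := by ring
        calc ‖S (cop P muc) R (d * x)‖ + ‖S (cop (ℓ * P) muc) (R / ℓ) (((ℓ * d : ℕ) : ℝ) * x)‖ ≤
              C * (d : ℝ) ^ η * Real.sqrt R + D * q * (d : ℝ) ^ η * Real.sqrt R :=
              add_le_add (hC R x hx d hd1) h8
          _ = (C + D * q) * (d : ℝ) ^ η * Real.sqrt R := by ring
          _ = _ := by rw [hDC]

theorem dil_cop {P : ℕ} (hP : 0 < P) {η : ℝ} (hη : η < 1 / 2) {A : Set ℝ}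
    (h : DB muc A η) : DB (cop P muc) A η := by
  induction P using induction_on_primes with
  | zero => omega
  | one => rwa [cop_one]
  | prime_mul p a hp ih =>
    have ha : 0 < a := Nat.pos_of_ne_zero (by rintro rfl; simp at hP)
    exact dil_step hp a hη (ih ha)

/-- large values at the multiples of the points of a short arc -/
theorem dil_arc {α β : ℝ} (hαβ : α < β) {η : ℝ} (hη : η < 1 / 2) (C : ℝ) :
    ∃ x ∈ Set.Icc α β, ∃ d : ℕ, 1 ≤ d ∧ ∃ R : ℕ, C * (d : ℝ) ^ η * Real.sqrt R < ‖S muc R (d * x)‖ := by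
  by_contra hcon
  push Not at hcon
  have h1 : DB muc (Set.Icc α β) η := by
    refine ⟨|C|, abs_nonneg _, fun R x hx d hd => (hcon x hx d hd R).trans ?_⟩
    have := le_abs_self C
    gcongr
  obtain ⟨P₀, hP₀, hP⟩ := small_totient (sub_pos.2 hαβ)
  obtain ⟨D, hD0, hD⟩ := dil_cop hP₀ hη h1
  have h2 := hP P₀ dvd_rfl
  obtain ⟨K, hK1, hK⟩ := arc P₀ hP₀
  apply not_UB
  rw [mu_cop hP₀ (by norm_num)]
  refine ⟨K * D, fun R x => ?_⟩
  rw [← Real.sqrt_eq_rpow, mul_assoc]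
  refine hK (cop P₀ muc) (fun n hn => by unfold cop; rw [if_neg hn]) α β (by linarith) R
    (D * Real.sqrt R) (by positivity) (fun y hy => ?_) x
  have h3 := hD R y hy 1 le_rfl
  simpa using h3

/-- generic points -/
theorem dil_generic : ∀ᶠ x in residual ℝ, ∀ η : ℝ, η < 1 / 2 → ∀ C : ℝ, ∃ d : ℕ, 1 ≤ d ∧ ∃ R : ℕ,
    C * (d : ℝ) ^ η * Real.sqrt R < ‖S muc R (d * x)‖ := by
  have key : ∀ N : ℕ, ∀ᶠ x in residual ℝ, ∃ d : ℕ, 1 ≤ d ∧ ∃ R : ℕ,
      (N : ℝ) * (d : ℝ) ^ (1 / 2 - 1 / ((N : ℝ) + 1)) * Real.sqrt R < ‖S muc R (d * x)‖ := by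
    intro N
    have hset : {x : ℝ | ∃ d : ℕ, 1 ≤ d ∧ ∃ R : ℕ,
        (N : ℝ) * (d : ℝ) ^ (1 / 2 - 1 / ((N : ℝ) + 1)) * Real.sqrt R < ‖S muc R (d * x)‖} ∈ residual ℝ := by
      refine residual_of_dense_open ?_ ?_
      · have he : {x : ℝ | ∃ d : ℕ, 1 ≤ d ∧ ∃ R : ℕ,
            (N : ℝ) * (d : ℝ) ^ (1 / 2 - 1 / ((N : ℝ) + 1)) * Real.sqrt R < ‖S muc R (d * x)‖} =
            ⋃ d : ℕ, ⋃ _ : 1 ≤ d, ⋃ R : ℕ,
              {x : ℝ | (N : ℝ) * (d : ℝ) ^ (1 / 2 - 1 / ((N : ℝ) + 1)) * Real.sqrt R <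
                ‖S muc R (d * x)‖} := by
          ext x
          simp only [Set.mem_ofPred_eq, Set.mem_iUnion, exists_prop]
        rw [he]
        refine isOpen_iUnion fun d => isOpen_iUnion fun _ => isOpen_iUnion fun R => ?_
        exact isOpen_lt continuous_const ((S_cont muc R).comp (by fun_prop)).norm
      · rw [dense_iff_inter_open]
        intro V hV hVne
        obtain ⟨z, hz⟩ := hVne
        obtain ⟨δ, hδ, hball⟩ := Metric.isOpen_iff.1 hV z hz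
        have hN : (0 : ℝ) < 1 / ((N : ℝ) + 1) := by positivity
        obtain ⟨x, hx, d, hd, R, hR⟩ := dil_arc (α := z) (β := z + δ / 2) (by linarith)
          (η := 1 / 2 - 1 / ((N : ℝ) + 1)) (by linarith) (N : ℝ)
        refine ⟨x, ?_, d, hd, R, hR⟩
        apply hball
        rw [Metric.mem_ball, Real.dist_eq, abs_lt]
        constructor <;> linarith [hx.1, hx.2]
    exact hset
  filter_upwards [eventually_countable_forall.2 key] with x hx η hη C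
  obtain ⟨N, hN⟩ := exists_nat_ge (max C (1 / (1 / 2 - η)))
  have h0 : 0 < 1 / 2 - η := by linarith
  obtain ⟨d, hd, R, hR⟩ := hx N
  refine ⟨d, hd, R, lt_of_le_of_lt ?_ hR⟩
  have hd1 : (1 : ℝ) ≤ d := by exact_mod_cast hd
  have h1 : C ≤ N := (le_max_left _ _).trans hN
  have h2 : 1 / (1 / 2 - η) ≤ N := (le_max_right _ _).trans hN
  have h3 : η ≤ 1 / 2 - 1 / ((N : ℝ) + 1) := by
    have h4 : 1 / ((N : ℝ) + 1) ≤ 1 / 2 - η := by
      rw [div_le_iff₀ (by positivity)]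
      rw [div_le_iff₀ h0] at h2
      nlinarith
    linarith
  have h5 : (d : ℝ) ^ η ≤ (d : ℝ) ^ (1 / 2 - 1 / ((N : ℝ) + 1)) :=
    Real.rpow_le_rpow_of_exponent_le hd1 h3
  have h6 : 0 ≤ (d : ℝ) ^ η := Real.rpow_nonneg (Nat.cast_nonneg _) _
  have h7 : C * (d : ℝ) ^ η ≤ N * (d : ℝ) ^ (1 / 2 - 1 / ((N : ℝ) + 1)) :=
    mul_le_mul h1 h5 h6 (Nat.cast_nonneg _)
  exact mul_le_mul_of_nonneg_right h7 (Real.sqrt_nonneg _)

end Pool.Agent.N375.LM
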