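import Pool.Agent.N375.LM.Wt
import Pool.Agent.Y853.EM.Rat
import Pool.Agent.Helper153.FacE

set_option autoImplicit false

/-! Unconditional lower bounds on arcs, and generic points. -/

namespace Pool.Agent.N375.LM

open Finset Filter Topology
open Pool.Agent.Y853.EM (S S_zero S_add_nat muc lic muc_norm od)

theorem not_UB : ¬ UB muc (1 / 2) := by
  rintro ⟨C, hC⟩
  obtain ⟨l₀, hl⟩ := Pool.Agent.Y853.EM.main_re 3 Nat.prime_three (by norm_num) C
  obtain ⟨a, -, ha⟩ := hl l₀ le_rfl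
  obtain ⟨R, hR⟩ := ha.exists
  have h1 := hC R ((a / (3 ^ (2 * l₀) : ℕ) : ℚ) : ℝ)
  rw [← Real.sqrt_eq_rpow] at h1
  have h2 := Complex.abs_re_le_norm (S muc R ((a / (3 ^ (2 * l₀) : ℕ) : ℚ) : ℝ))
  linarith

theorem norm_S_le' {c : ℕ → ℂ} {A : ℝ} (hc : ∀ n, ‖c n‖ ≤ A) (R : ℕ) (x : ℝ) : ‖S c R x‖ ≤ A * R := by
  unfold S
  refine (norm_sum_le _ _).trans ?_
  calc ∑ n ∈ Finset.Icc 1 R, ‖c n * Complex.exp (2 * Real.pi * Complex.I * n * x)‖
      ≤ ∑ n ∈ Finset.Icc 1 R, A := by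
        refine Finset.sum_le_sum fun n _ => ?_
        rw [norm_mul]
        have : ‖Complex.exp (2 * Real.pi * Complex.I * n * x)‖ = 1 := by
          rw [show (2 * Real.pi * Complex.I * n * x : ℂ) = ((2 * Real.pi * n * x : ℝ) : ℂ) * Complex.I by
            push_cast; ring]
          exact Complex.norm_exp_ofReal_mul_I _
        rw [this, mul_one]
        exact hc n
    _ = A * R := by simp [mul_comm]

/-- frequently large, or a bound for all `R` -/
theorem freq_of_not {c : ℕ → ℂ} {A : ℝ} (hc : ∀ n, ‖c n‖ ≤ A) {α β : ℝ} (h : ¬ AB c α β (1 / 2))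
    (C : ℝ) : ∃ᶠ R : ℕ in atTop, ∃ x ∈ Set.Icc α β, C * Real.sqrt R < ‖S c R x‖ := by
  intro h1
  apply h
  have hA : 0 ≤ A := (norm_nonneg _).trans (hc 0)
  obtain ⟨R₀, hR₀⟩ := eventually_atTop.1 h1
  refine ⟨|C| + A * R₀, fun R x hx => ?_⟩
  rw [← Real.sqrt_eq_rpow]
  have hs : 0 ≤ Real.sqrt R := Real.sqrt_nonneg _
  by_cases hR : R₀ ≤ R
  · have h2 := hR₀ R hR
    have h3 : ‖S c R x‖ ≤ C * Real.sqrt R := by
      by_contra h4
      exact h2 ⟨x, hx, not_le.1 h4⟩
    have h4 : C ≤ |C| + A * R₀ := by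
      have := le_abs_self C
      have : 0 ≤ A * R₀ := by positivity
      linarith
    exact h3.trans (mul_le_mul_of_nonneg_right h4 hs)
  · rcases Nat.eq_zero_or_pos R with rfl | hR1
    · rw [S_zero, norm_zero]
      positivity
    · have h2 := norm_S_le' hc R x
      have h3 : (1 : ℝ) ≤ Real.sqrt R := by
        rw [Real.one_le_sqrt]
        exact_mod_cast hR1
      have h4 : (R : ℝ) ≤ R₀ := by exact_mod_cast (not_le.1 hR).le
      have h5 : A * R ≤ A * R₀ := mul_le_mul_of_nonneg_left h4 hA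
      have h6 : A * R₀ ≤ (|C| + A * R₀) * 1 := by
        have := abs_nonneg C
        linarith
      refine h2.trans (h5.trans (h6.trans ?_))
      exact mul_le_mul_of_nonneg_left h3 (by positivity)

theorem wt_bdd {P : ℕ} (hP : 0 < P) (w : ZMod P → ℂ) : ∃ A : ℝ, ∀ n : ℕ, ‖w (n : ZMod P) * muc n‖ ≤ A := by
  have : NeZero P := ⟨hP.ne'⟩
  refine ⟨∑ u : ZMod P, ‖w u‖, fun n => ?_⟩
  rw [norm_mul]
  have h1 : ‖w (n : ZMod P)‖ ≤ ∑ u : ZMod P, ‖w u‖ :=
    Finset.single_le_sum (f := fun u => ‖w u‖) (fun u _ => norm_nonneg _) (Finset.mem_univ _)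
  calc ‖w (n : ZMod P)‖ * ‖muc n‖ ≤ ‖w (n : ZMod P)‖ * 1 :=
        mul_le_mul_of_nonneg_left (muc_norm n) (norm_nonneg _)
    _ ≤ _ := by rw [mul_one]; exact h1

theorem UB_mu {P : ℕ} (hP : 0 < P) {w : ZMod P → ℂ} (hw : UnitWeight P w) {b : ℝ} (hb : 0 < b) :
    UB muc b ↔ UB (fun n => w (n : ZMod P) * muc n) b :=
  (mu_cop hP hb).trans (UB_wt hP hw muc b)

theorem UB_li {P : ℕ} (hP : 0 < P) {w : ZMod P → ℂ} (hw : UnitWeight P w) {b : ℝ} (hb : 0 < b) :
    UB lic b ↔ UB (fun n => w (n : ZMod P) * lic n) b :=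
  (li_cop hP hb).trans (UB_wt hP hw lic b)

theorem omega_arc {P : ℕ} (hP : 0 < P) {w : ZMod P → ℂ} (hw : UnitWeight P w) {α β : ℝ}
    (hαβ : (P.totient : ℝ) ≤ P * (β - α)) (C : ℝ) :
    ∃ᶠ R : ℕ in atTop, ∃ x ∈ Set.Icc α β, C * Real.sqrt R < ‖S (fun n => w (n : ZMod P) * muc n) R x‖ := by
  obtain ⟨A, hA⟩ := wt_bdd hP w
  refine freq_of_not hA ?_ C
  rw [AB_iff hP hw muc _ hαβ, ← UB_mu hP hw (by norm_num)]
  exact not_UB

theorem totient_mul_le (k m : ℕ) : (k * m).totient ≤ k * m.totient := by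
  induction k using induction_on_primes with
  | zero => simp
  | one => simp
  | prime_mul p a hp ih =>
    have h1 : (p * (a * m)).totient ≤ p * (a * m).totient := by
      by_cases h : p ∣ a * m
      · rw [Nat.totient_mul_of_prime_of_dvd hp h]
      · rw [Nat.totient_mul_of_prime_of_not_dvd hp h]
        exact Nat.mul_le_mul_right _ (Nat.sub_le _ _)
    calc (p * a * m).totient = (p * (a * m)).totient := by rw [mul_assoc]
      _ ≤ p * (a * m).totient := h1
      _ ≤ p * (a * m.totient) := Nat.mul_le_mul_left _ ih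
      _ = p * a * m.totient := by ring

theorem small_totient {ε : ℝ} (hε : 0 < ε) : ∃ P₀ : ℕ, 0 < P₀ ∧ ∀ P : ℕ, P₀ ∣ P → (P.totient : ℝ) ≤ ε * P := by
  obtain ⟨P₀, h0, h1⟩ := Pool.Agent.Helper153.Vdc.exists_totient_small ε hε
  refine ⟨P₀, h0, ?_⟩
  rintro P ⟨k, rfl⟩
  have h2 : ((P₀ * k).totient : ℝ) ≤ k * P₀.totient := by
    have := totient_mul_le k P₀
    rw [mul_comm] at this
    exact_mod_cast this
  have h3 : (k : ℝ) * P₀.totient ≤ k * (ε * P₀) := mul_le_mul_of_nonneg_left h1 (Nat.cast_nonneg _)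
  push_cast
  linarith

theorem S_cont (c : ℕ → ℂ) (R : ℕ) : Continuous (S c R) := by
  unfold S
  fun_prop

/-- generic points -/
theorem generic (w : ∀ P : ℕ, ZMod P → ℂ) (hw : ∀ P : ℕ, 0 < P → UnitWeight P (w P)) (Φ : ℕ → ℝ) :
    ∀ᶠ x in residual ℝ, ∃ᶠ P : ℕ in atTop, ∃ R : ℕ,
      Φ P * Real.sqrt R < ‖S (fun n => w P (n : ZMod P) * muc n) R x‖ := by
  have key : ∀ N : ℕ, ∀ᶠ x in residual ℝ, ∃ P : ℕ, N ≤ P ∧ ∃ R : ℕ,
      Φ P * Real.sqrt R < ‖S (fun n => w P (n : ZMod P) * muc n) R x‖ := by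
    intro N
    have hset : {x : ℝ | ∃ P : ℕ, N ≤ P ∧ ∃ R : ℕ,
        Φ P * Real.sqrt R < ‖S (fun n => w P (n : ZMod P) * muc n) R x‖} ∈ residual ℝ := by
      refine residual_of_dense_open ?_ ?_
      · have he : {x : ℝ | ∃ P : ℕ, N ≤ P ∧ ∃ R : ℕ,
            Φ P * Real.sqrt R < ‖S (fun n => w P (n : ZMod P) * muc n) R x‖} =
            ⋃ P : ℕ, ⋃ _ : N ≤ P, ⋃ R : ℕ,
              {x : ℝ | Φ P * Real.sqrt R < ‖S (fun n => w P (n : ZMod P) * muc n) R x‖} := by
          ext x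
          simp only [Set.mem_ofPred_eq, Set.mem_iUnion, exists_prop]
        rw [he]
        refine isOpen_iUnion fun P => isOpen_iUnion fun _ => isOpen_iUnion fun R => ?_
        exact isOpen_lt continuous_const (S_cont _ R).norm
      · rw [dense_iff_inter_open]
        intro V hV hVne
        obtain ⟨z, hz⟩ := hVne
        obtain ⟨δ, hδ, hball⟩ := Metric.isOpen_iff.1 hV z hz
        obtain ⟨P₀, hP₀, hP⟩ := small_totient (half_pos hδ)
        have h1 : 0 < P₀ * (N + 1) := Nat.mul_pos hP₀ (Nat.succ_pos _)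
        have h2 : N ≤ P₀ * (N + 1) := by nlinarith
        have h3 := hP (P₀ * (N + 1)) (Dvd.intro _ rfl)
        obtain ⟨R, x, hx, hR⟩ := (omega_arc h1 (hw _ h1) (α := z) (β := z + δ / 2) (by
          rw [show z + δ / 2 - z = δ / 2 by ring]
          linarith) (Φ (P₀ * (N + 1)))).exists
        refine ⟨x, ?_, ?_⟩
        · apply hball
          rw [Metric.mem_ball, Real.dist_eq, abs_lt]
          constructor <;> linarith [hx.1, hx.2]
        · exact ⟨P₀ * (N + 1), h2, R, hR⟩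
    exact hset
  filter_upwards [eventually_countable_forall.2 key] with x hx
  rw [frequently_atTop]
  intro N
  obtain ⟨P, h1, h2⟩ := hx N
  exact ⟨P, h1, h2⟩

/-- arcs of length one half suffice for `μ` itself -/
theorem half_arc {c : ℕ → ℂ} (h2 : Pool.Agent.Y853.EM.Mu2 c) {b : ℝ} (hb : 0 < b) {α β : ℝ}
    (hαβ : 1 / 2 ≤ β - α) : AB c α β b ↔ UB c b := by
  constructor
  · rintro ⟨C, hC⟩
    have hshift : ∀ (R : ℕ) (x : ℝ) (t : ℤ), ‖S (od c) R (x + t / 2)‖ = ‖S (od c) R x‖ := by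
      intro R x t
      induction t using Int.induction_on with
      | zero => simp
      | succ i ih =>
        have e : x + (((i : ℤ) + 1 : ℤ) : ℝ) / 2 = (x + ((i : ℤ) : ℝ) / 2) + 1 / 2 := by
          push_cast; ring
        rw [e, Pool.Agent.Y853.EM.S_od_half, norm_neg]
        exact ih
      | pred i ih =>
        have e : x + ((-(i : ℤ) - 1 : ℤ) : ℝ) / 2 = (x + ((-(i : ℤ) : ℤ) : ℝ) / 2) - 1 / 2 := by
          push_cast; ring
        rw [e, Pool.Agent.Y853.EM.S_od_sub_half, norm_neg]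
        exact ih
    have hk := Pool.Agent.Y853.EM.kap_eq hb
    have hk0 := Pool.Agent.Y853.EM.kap_pos hb
    have hod : ∀ (R : ℕ) (x : ℝ), ‖S (od c) R x‖ ≤ Pool.Agent.Y853.EM.kap b * |C| * (R : ℝ) ^ b := by
      intro R
      induction R using Nat.strong_induction_on with
      | _ R ih =>
        intro x
        rcases Nat.eq_zero_or_pos R with rfl | hR
        · rw [S_zero, norm_zero]
          positivity
        · obtain ⟨t, ht⟩ : ∃ t : ℤ, t = ⌈2 * (α - x)⌉ := ⟨_, rfl⟩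
          have ht1 : 2 * (α - x) ≤ t := by rw [ht]; exact Int.le_ceil _
          have ht2 : (t : ℝ) < 2 * (α - x) + 1 := by rw [ht]; exact Int.ceil_lt_add_one _
          rw [← hshift R x t]
          obtain ⟨y, hy⟩ : ∃ y : ℝ, y = x + t / 2 := ⟨_, rfl⟩
          rw [← hy]
          have hyI : y ∈ Set.Icc α β := by
            constructor <;> rw [hy] <;> linarith
          have h3 := Pool.Agent.Y853.EM.mu_eq h2 R y
          have h4 : S (od c) R y = S c R y + S (od c) (R / 2) (2 * y) := by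
            rw [h3]
            ring
          rw [h4]
          refine (norm_add_le _ _).trans ?_
          have h5 := ih (R / 2) (Nat.div_lt_self hR (by norm_num)) (2 * y)
          have h6 := Pool.Agent.Y853.EM.half_rpow hb.le R
          have h7 : ‖S c R y‖ ≤ |C| * (R : ℝ) ^ b := (hC R y hyI).trans
            (mul_le_mul_of_nonneg_right (le_abs_self _) (Real.rpow_nonneg (Nat.cast_nonneg _) _))
          calc ‖S c R y‖ + ‖S (od c) (R / 2) (2 * y)‖
              ≤ |C| * (R : ℝ) ^ b + Pool.Agent.Y853.EM.kap b * |C| * ((2 : ℝ) ^ (-b) * (R : ℝ) ^ b) := by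
                refine add_le_add h7 (h5.trans ?_)
                exact mul_le_mul_of_nonneg_left h6 (by positivity)
            _ = (1 + Pool.Agent.Y853.EM.kap b * (2 : ℝ) ^ (-b)) * |C| * (R : ℝ) ^ b := by ring
            _ = _ := by rw [hk]
    refine ⟨2 * (Pool.Agent.Y853.EM.kap b * |C|), fun R x => ?_⟩
    rw [Pool.Agent.Y853.EM.mu_eq h2 R x]
    refine (norm_sub_le _ _).trans ?_
    have h5 := hod R x
    have h6 := hod (R / 2) (2 * x)
    have h7 : ((R / 2 : ℕ) : ℝ) ^ b ≤ (R : ℝ) ^ b :=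
      Real.rpow_le_rpow (Nat.cast_nonneg _) (by exact_mod_cast Nat.div_le_self R 2) hb.le
    have h8 : Pool.Agent.Y853.EM.kap b * |C| * ((R / 2 : ℕ) : ℝ) ^ b ≤
        Pool.Agent.Y853.EM.kap b * |C| * (R : ℝ) ^ b := mul_le_mul_of_nonneg_left h7 (by positivity)
    linarith
  · rintro ⟨C, hC⟩
    exact ⟨C, fun R x _ => hC R x⟩

end Pool.Agent.N375.LM
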