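import Pool.Agent.N375.LM.Cop
import Pool.Agent.Y853.EM.Fin

set_option autoImplicit false

/-! Periodic weights. -/

namespace Pool.Agent.N375.LM

open Finset
open Pool.Agent.Y853.EM (S S_zero S_add_nat muc lic)

/-- every function modulo `P` is a combination of the additive characters -/
theorem expand {P : ℕ} [NeZero P] (w : ZMod P → ℂ) : ∃ t : ZMod P → ℂ, ∀ n : ℕ,
    w (n : ZMod P) = ∑ j : ZMod P, t j * Complex.exp (2 * Real.pi * Complex.I * (n * (j.val / P))) := by
  refine ⟨fun j => (P : ℂ)⁻¹ * ZMod.dft w j, fun n => ?_⟩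
  have h1 : ZMod.dft.symm (ZMod.dft w) (n : ZMod P) = w (n : ZMod P) := by
    rw [LinearEquiv.symm_apply_apply]
  rw [← h1, ZMod.invDFT_apply, Finset.smul_sum]
  refine Finset.sum_congr rfl fun j _ => ?_
  rw [smul_eq_mul, smul_eq_mul]
  have h2 : (ZMod.stdAddChar (j * (n : ZMod P)) : ℂ) =
      Complex.exp (2 * Real.pi * Complex.I * (n * (j.val / P))) := by
    have h3 : j * (n : ZMod P) = (((j.val * n : ℕ) : ℤ) : ZMod P) := by
      push_cast
      rw [ZMod.natCast_zmod_val]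
    rw [h3, ZMod.stdAddChar_coe]
    congr 1
    push_cast
    ring
  rw [h2]
  ring

theorem S_weight {P : ℕ} [NeZero P] (w : ZMod P → ℂ) (c : ℕ → ℂ) {b : ℝ} (h : UB c b) :
    UB (fun n => w (n : ZMod P) * c n) b := by
  obtain ⟨t, ht⟩ := expand w
  obtain ⟨C, hC0, hC⟩ := UB_nonneg h
  refine ⟨(∑ j : ZMod P, ‖t j‖) * C, fun R x => ?_⟩
  have h1 : S (fun n => w (n : ZMod P) * c n) R x = ∑ j : ZMod P, t j * S c R (x + j.val / P) := by
    unfold S
    simp only [Finset.mul_sum]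
    rw [Finset.sum_comm]
    refine Finset.sum_congr rfl fun n _ => ?_
    rw [ht n, Finset.sum_mul, Finset.sum_mul]
    refine Finset.sum_congr rfl fun j _ => ?_
    have h2 : Complex.exp (2 * Real.pi * Complex.I * n * ((x + j.val / P : ℝ) : ℂ)) =
        Complex.exp (2 * Real.pi * Complex.I * (n * (j.val / P))) *
          Complex.exp (2 * Real.pi * Complex.I * n * x) := by
      rw [← Complex.exp_add]
      congr 1
      push_cast
      ring
    rw [h2]
    ring
  rw [h1]
  refine (norm_sum_le _ _).trans ?_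
  calc ∑ j : ZMod P, ‖t j * S c R (x + j.val / P)‖ ≤ ∑ j : ZMod P, ‖t j‖ * (C * (R : ℝ) ^ b) := by
        refine Finset.sum_le_sum fun j _ => ?_
        rw [norm_mul]
        exact mul_le_mul_of_nonneg_left (hC _ _) (norm_nonneg _)
    _ = (∑ j : ZMod P, ‖t j‖) * C * (R : ℝ) ^ b := by
        rw [← Finset.sum_mul]
        ring

/-- a weight modulo `P` whose zeros are exactly the residues not prime to `P` -/
def UnitWeight (P : ℕ) (w : ZMod P → ℂ) : Prop := ∀ u : ZMod P, w u ≠ 0 ↔ IsUnit u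

theorem wt_zero {P : ℕ} {w : ZMod P → ℂ} (hw : UnitWeight P w) {n : ℕ} (hn : ¬ n.Coprime P) :
    w (n : ZMod P) = 0 := by
  by_contra h
  exact hn ((ZMod.isUnit_iff_coprime n P).1 ((hw _).1 h))

theorem UB_wt {P : ℕ} (hP : 0 < P) {w : ZMod P → ℂ} (hw : UnitWeight P w) (f : ℕ → ℂ) (b : ℝ) :
    UB (cop P f) b ↔ UB (fun n => w (n : ZMod P) * f n) b := by
  have : NeZero P := ⟨hP.ne'⟩
  constructor
  · intro h
    have h1 := S_weight w _ h
    have h2 : (fun n : ℕ => w (n : ZMod P) * cop P f n) = fun n : ℕ => w (n : ZMod P) * f n := by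
      funext n
      unfold cop
      split_ifs with h3
      · rfl
      · rw [wt_zero hw h3]
        ring
    rwa [h2] at h1
  · intro h
    have h1 := S_weight (fun u => (w u)⁻¹) _ h
    have h2 : (fun n : ℕ => (w (n : ZMod P))⁻¹ * (w (n : ZMod P) * f n)) = cop P f := by
      funext n
      unfold cop
      split_ifs with h3
      · have h4 : w (n : ZMod P) ≠ 0 := (hw _).2 ((ZMod.isUnit_iff_coprime n P).2 h3)
        field_simp
      · rw [wt_zero hw h3]
        ring
    rwa [h2] at h1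

/-- power bounds, uniform on an arc -/
def AB (c : ℕ → ℂ) (α β b : ℝ) : Prop :=
  ∃ C : ℝ, ∀ (R : ℕ), ∀ x ∈ Set.Icc α β, ‖S c R x‖ ≤ C * (R : ℝ) ^ b

theorem AB_iff {P : ℕ} (hP : 0 < P) {w : ZMod P → ℂ} (hw : UnitWeight P w) (f : ℕ → ℂ) (b : ℝ)
    {α β : ℝ} (hαβ : (P.totient : ℝ) ≤ P * (β - α)) :
    AB (fun n => w (n : ZMod P) * f n) α β b ↔ UB (fun n => w (n : ZMod P) * f n) b := by
  constructor
  · rintro ⟨C, hC⟩
    obtain ⟨K, hK1, hK⟩ := arc P hP
    refine ⟨K * |C|, fun R x => ?_⟩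
    have h1 := hK (fun n => w (n : ZMod P) * f n) (fun n hn => by
      show w (n : ZMod P) * f n = 0
      rw [wt_zero hw hn, zero_mul]) α β hαβ R
      (|C| * (R : ℝ) ^ b) (mul_nonneg (abs_nonneg _) (Real.rpow_nonneg (Nat.cast_nonneg _) _))
      (fun y hy => (hC R y hy).trans (mul_le_mul_of_nonneg_right (le_abs_self _)
        (Real.rpow_nonneg (Nat.cast_nonneg _) _))) x
    rw [mul_assoc]
    exact h1
  · rintro ⟨C, hC⟩
    exact ⟨C, fun R x _ => hC R x⟩

end Pool.Agent.N375.LM
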